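import Pool.Agent.H11.EL.Targets2

/-! # MP_0b603e_al, module VF: central-by-bounded groups (Schur) -/

set_option autoImplicit false

open scoped commutatorElement

namespace Pool.Agent.H69.EL

open Pool.Agent.H11.EL

/-- a commutator depends only on the classes modulo the center -/
theorem comm_congr {G : Type} [Group G] {x x' y y' : G} (hx : x⁻¹ * x' ∈ Subgroup.center G)
    (hy : y⁻¹ * y' ∈ Subgroup.center G) : ⁅x, y⁆ = ⁅x', y'⁆ := by
  obtain ⟨z, hz⟩ : ∃ z, z = x⁻¹ * x' := ⟨_, rfl⟩
  obtain ⟨w, hw⟩ : ∃ w, w = y⁻¹ * y' := ⟨_, rfl⟩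
  rw [← hz] at hx
  rw [← hw] at hy
  have ex : x' = x * z := by rw [hz]; group
  have ey : y' = y * w := by rw [hw]; group
  have cz := Subgroup.mem_center_iff.1 hx
  have cw := Subgroup.mem_center_iff.1 hy
  rw [ex, ey, commutatorElement_def, commutatorElement_def]
  have h1 : x * z * (y * w) = z * w * (x * y) := by
    have e1 := cz x
    have e2 := cw (x * y)
    calc x * z * (y * w) = (x * z) * y * w := by group
      _ = (z * x) * y * w := by rw [e1]
      _ = z * (x * y * w) := by group
      _ = z * (w * (x * y)) := by rw [e2]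
      _ = z * w * (x * y) := by group
  have h2 : y * w * (x * z) = z * w * (y * x) := by
    have e1 := cw y
    have e2 := cz (w * (y * x))
    calc y * w * (x * z) = (y * w) * x * z := by group
      _ = (w * y) * x * z := by rw [e1]
      _ = (w * (y * x)) * z := by group
      _ = z * (w * (y * x)) := by rw [e2]
      _ = z * w * (y * x) := by group
  have h3 : x * z * (y * w) * (x * z)⁻¹ * (y * w)⁻¹ = (x * z * (y * w)) * (y * w * (x * z))⁻¹ := by
    group
  rw [h3, h1, h2]
  have h4 : z * w * (x * y) * (z * w * (y * x))⁻¹ = (z * w) * (x * y * x⁻¹ * y⁻¹) * (z * w)⁻¹ := by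
    group
  rw [h4]
  have c1 : ∀ g, g * (z * w) = (z * w) * g := fun g => by
    calc g * (z * w) = (g * z) * w := by group
      _ = z * g * w := by rw [cz g]
      _ = z * (g * w) := by group
      _ = z * (w * g) := by rw [cw g]
      _ = (z * w) * g := by group
  rw [← c1 (x * y * x⁻¹ * y⁻¹)]
  group

theorem card_commSet_le {G : Type} [Group G] [Finite G] {m : ℕ}
    (hm : (Subgroup.center G).index ≤ m) : Nat.card (commutatorSet G) ≤ m * m := by
  classical
  set Q := G ⧸ Subgroup.center G with hQ
  have hout : ∀ x : G, (x : Q).out⁻¹ * x ∈ Subgroup.center G := by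
    intro x
    rw [← QuotientGroup.eq]
    exact Quotient.out_eq' (x : Q)
  let f : Q × Q → commutatorSet G := fun q => ⟨⁅q.1.out, q.2.out⁆, ⟨q.1.out, q.2.out, rfl⟩⟩
  have hf : Function.Surjective f := by
    rintro ⟨g, x, y, rfl⟩
    refine ⟨((x : Q), (y : Q)), ?_⟩
    apply Subtype.ext
    exact comm_congr (hout x) (hout y)
  have h1 := Nat.card_le_card_of_surjective f hf
  rw [Nat.card_prod] at h1
  have h2 : Nat.card Q ≤ m := hm
  exact h1.trans (Nat.mul_le_mul h2 h2)

theorem cp_ofFn {G : Type} [Group G] (n : ℕ) (a b : ℕ → G) :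
    cp n a b = (List.ofFn fun i : Fin n => ⁅a i, b i⁆).prod := by
  unfold cp
  congr 1
  rw [List.ofFn_eq_map]
  apply List.ext_getElem
  · simp
  · intro i h1 h2
    simp

theorem pf_vf (hSP : T_SP) : T_VF := by
  intro m
  refine ⟨(Finset.range (m * m + 1)).sup Subgroup.cardCommutatorBound, ?_⟩
  intro G _ _ hm g hg
  have h1 := card_commSet_le hm
  have h2 : Nat.card (commutator G) ≤
      (Finset.range (m * m + 1)).sup Subgroup.cardCommutatorBound :=
    (Subgroup.card_commutator_le_of_finite_commutatorSet G).trans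
      (Finset.le_sup (f := Subgroup.cardCommutatorBound) (Finset.mem_range.2 (by omega)))
  set n := (Finset.range (m * m + 1)).sup Subgroup.cardCommutatorBound with hn
  have hcl : Subgroup.closure (commutatorSet G) = commutator G := (commutator_eq_closure G).symm
  obtain ⟨l, hl, hgl⟩ := hSP G (commutatorSet G) n ⟨1, 1, by simp⟩
    (by
      rintro x ⟨a, b, rfl⟩
      exact ⟨b, a, by rw [commutatorElement_inv]⟩)
    inferInstance (by rw [hcl]; exact h2) g (by rw [hcl]; exact hg)
  choose a b hab using hl
  refine ⟨fun i => if h : i < n then a ⟨i, h⟩ else 1, fun i => if h : i < n then b ⟨i, h⟩ else 1, ?_⟩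
  rw [cp_ofFn, hgl]
  congr 1
  apply List.ofFn_inj.2
  funext i
  simp only [Fin.is_lt, dif_pos]
  exact hab i

end Pool.Agent.H69.EL
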